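import Pool.Agent.Cm.Stmt
import Pool.Agent.Singer.Stmt3

/-!
# Mirrored groups: good edges, and the subgroups of the mirrored group of a vertex given by a set of edges

* `GoodEdge m Γ M x v` : the conditions on the edge from the vertex `x` to the vertex `v`;
* `part Γ M x A` : the subgroup of the mirrored group of `x` generated by the stabilizer of `x` and the reflections of the
  edges in the set `A`.
-/

set_option autoImplicit false

namespace RTK

open Singer CubeComplex

/-- only finitely many elements of the group fix both ends of the edge from `x` to its neighbour `v`; no element of the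
stabilizer of `x` maps `v` to a vertex which is adjacent to `v` in the link of `x`; the link of the edge is a full subgraph
of a flag homology sphere of dimension `m - 1` -/
structure GoodEdge (m : ℕ) (Γ : Type) {X : Type} [Group Γ] [MulAction Γ X] (M : SimpleGraph X) (x : X)
    (v : M.neighborSet x) : Prop where
  fin : {g : Γ | g • x = x ∧ g • (v : X) = v}.Finite
  indep : ∀ (g : Γ) (w : M.neighborSet x), g • x = x → g • (v : X) = w → ¬ (link M x).Adj v w
  sphere : ∃ (T : Type) (K : SimpleGraph T), SingerCube.HSphere m K ∧ Nonempty (SingerPD.link (link M x) v ↪g K)

/-- the subgroup of the mirrored group of `x` generated by the stabilizer of `x` and the reflections of the neighbours of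
`x` in the set `A` -/
def part (Γ : Type) {X : Type} [Group Γ] [MulAction Γ X] (M : SimpleGraph X) (x : X) (A : Set (M.neighborSet x)) :
    Subgroup (MirGroup Γ M x) :=
  Subgroup.closure (Set.range (fun g : MulAction.stabilizer Γ x => (PresentedGroup.of (Sum.inl g) : MirGroup Γ M x)) ∪
    (fun a => PresentedGroup.of (Sum.inr a)) '' A)

end RTK
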