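import Pool.Agent.Cm.Grp
import Pool.Agent.Singer.Gen.TD

/-!
# Reflection groups with a group of symmetries: adding an orbit of reflections

`S : Hyp V B` is a graph with an action of the group `B`; `Gh S Unit` is the semidirect product of its right-angled Coxeter
group with `B`.

* `GA S A` : the subgroup of `Gh S Unit` given by a `B`-invariant set `A` of vertices;
* `CA` : the subgroup of `GA S A` given by the neighbours of `v` in `A` and the stabilizer of `v`; `caEquiv` : it is a
  group of the type `Gh S' Unit`;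
* `md` : if `v` is not in `A` and no vertex of its orbit is adjacent to `v` then the group of `A ∪ B • v` is generated by the
  group of `A` and the involution of `v`, amalgamated over `CA`.
-/

set_option autoImplicit false
set_option linter.unusedSectionVars false
set_option linter.unusedVariables false

namespace RTK

open Singer Cm

variable {V B : Type} [Group B] [MulAction B V]

/-! ### retractions of right-angled Coxeter groups -/

section ret
variable (L : SimpleGraph V) (A : Set V)

open Classical in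
/-- the retraction to the special subgroup of `A` -/
noncomputable def rt : RACG L →* RACG L :=
  Racg.lift (fun v => if v ∈ A then Racg.gen L v else 1) (fun v => by split_ifs <;> simp) fun u v h => by
    split_ifs
    · exact Racg.gen_comm h
    all_goals simp

variable {L A}

lemma rt_mem {v : V} (h : v ∈ A) : rt L A (Racg.gen L v) = Racg.gen L v := by
  classical
  unfold rt
  rw [Racg.lift_gen, if_pos h]

lemma rt_notMem {v : V} (h : v ∉ A) : rt L A (Racg.gen L v) = 1 := by
  classical
  unfold rt
  rw [Racg.lift_gen, if_neg h]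

lemma rt_of_mem {w : RACG L} (h : w ∈ Racg.sub (G := L) A) : rt L A w = w := by
  have h1 : Racg.sub (G := L) A ≤ MonoidHom.eqLocus (rt L A) (MonoidHom.id _) := by
    refine (Subgroup.closure_le _).2 ?_
    rintro _ ⟨v, hv, rfl⟩
    exact rt_mem hv
  exact h1 h

/-- the intersection of two special subgroups -/
lemma mem_inter {D : Set V} {w : RACG L} (h1 : w ∈ Racg.sub (G := L) A) (h2 : w ∈ Racg.sub (G := L) D) :
    w ∈ Racg.sub (G := L) (D ∩ A) := by
  have h3 : Racg.sub (G := L) D ≤ (Racg.sub (G := L) (D ∩ A)).comap (rt L A) := by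
    refine (Subgroup.closure_le _).2 ?_
    rintro _ ⟨v, hv, rfl⟩
    show rt L A (Racg.gen L v) ∈ Racg.sub (G := L) (D ∩ A)
    by_cases hA : v ∈ A
    · rw [rt_mem hA]
      exact Racg.gen_mem_sub ⟨hv, hA⟩
    · rw [rt_notMem hA]
      exact Subgroup.one_mem _
  have h4 : rt L A w ∈ Racg.sub (G := L) (D ∩ A) := h3 h2
  rwa [rt_of_mem h1] at h4

end ret

/-! ### the groups -/

variable (S : Hyp V B)

lemma smul_mem {A : Set V} (b : B) (hA : ∀ v, v ∈ A → b • v ∈ A) {w : RACG S.C}
    (hw : w ∈ Racg.sub (G := S.C) A) :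
    Racg.map (fun t => b • t) (fun u v h => (S.adj b u v).2 h) w ∈ Racg.sub (G := S.C) A := by
  have h1 : Racg.sub (G := S.C) A ≤ (Racg.sub (G := S.C) A).comap
      (Racg.map (fun t => b • t) (fun u v h => (S.adj b u v).2 h)) := by
    refine (Subgroup.closure_le _).2 ?_
    rintro _ ⟨v, hv, rfl⟩
    show Racg.map (fun t => b • t) (fun u v h => (S.adj b u v).2 h) (Racg.gen S.C v) ∈ Racg.sub (G := S.C) A
    rw [Racg.map_gen]
    exact Racg.gen_mem_sub (hA v hv)
  exact h1 hw

lemma smul_pw_mem {A : Set V} (hA : ∀ (b : B) v, v ∈ A → b • v ∈ A) (b : B) {w : RACG S.C}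
    (hw : w ∈ Racg.sub (G := S.C) A) :
    Racg.map (fun t => b • t) (fun u v h => (S.adj b u v).2 h) w ∈ Racg.sub (G := S.C) A := smul_mem S b (hA b) hw

/-- the subgroup given by an invariant set of vertices -/
def GA {A : Set V} (hA : ∀ (b : B) v, v ∈ A → b • v ∈ A) : Subgroup (Gh S Unit) where
  carrier := {x | pw x.left ∈ Racg.sub (G := S.C) A}
  one_mem' := by
    show (1 : RACG S.C) ∈ Racg.sub (G := S.C) A
    exact Subgroup.one_mem _
  mul_mem' {x y} hx hy := by
    show pw (x * y).left ∈ Racg.sub (G := S.C) A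
    rw [SemidirectProduct.mul_left, pw_mul]
    exact Subgroup.mul_mem _ hx (smul_pw_mem S hA x.right hy)
  inv_mem' {x} hx := by
    show pw (x⁻¹).left ∈ Racg.sub (G := S.C) A
    rw [SemidirectProduct.inv_left]
    exact smul_pw_mem S hA x.right⁻¹ (Subgroup.inv_mem _ hx)

variable {S}

lemma mem_GA {A : Set V} {hA : ∀ (b : B) v, v ∈ A → b • v ∈ A} {x : Gh S Unit} :
    x ∈ GA S hA ↔ pw x.left ∈ Racg.sub (G := S.C) A := Iff.rfl

lemma GA_mono {A D : Set V} {hA : ∀ (b : B) v, v ∈ A → b • v ∈ A} {hD : ∀ (b : B) v, v ∈ D → b • v ∈ D}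
    (h : A ⊆ D) : GA S hA ≤ GA S hD := fun _ hx => Racg.sub_mono h hx

/-- an element of the right-angled Coxeter group -/
noncomputable def el (w : RACG S.C) : Gh S Unit :=
  SemidirectProduct.inl (((w, 1) : RACG S.C × Multiplicative (V → Unit)) : NN S Unit)

@[simp] lemma pw_el (w : RACG S.C) : pw (el w : Gh S Unit).left = w := rfl

@[simp] lemma el_right (w : RACG S.C) : (el w : Gh S Unit).right = 1 := rfl

lemma gh_ext {x y : Gh S Unit} (h1 : pw x.left = pw y.left) (h2 : x.right = y.right) : x = y :=
  SemidirectProduct.ext (nn_ext h1 fun t => Subsingleton.elim (α := Unit) _ _) h2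

lemma el_mul (w w' : RACG S.C) : (el (w * w') : Gh S Unit) = el w * el w' := by
  refine gh_ext ?_ ?_
  · rw [SemidirectProduct.mul_left, pw_mul, el_right, map_one]
    rfl
  · rw [SemidirectProduct.mul_right, el_right, el_right, el_right, one_mul]

/-- an element of `B` -/
noncomputable def er (b : B) : Gh S Unit := SemidirectProduct.inr b

lemma pw_mul_el (x : Gh S Unit) (w : RACG S.C) : pw (x * el w).left =
    pw x.left * Racg.map (fun t => x.right • t) (fun u v h => (S.adj x.right u v).2 h) w := by
  rw [SemidirectProduct.mul_left, pw_mul]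
  rfl

lemma pw_mul_gen (x : Gh S Unit) (v : V) :
    pw (x * el (Racg.gen S.C v)).left = pw x.left * Racg.gen S.C (x.right • v) := by
  rw [pw_mul_el, Racg.map_gen]

lemma mul_el_right (x : Gh S Unit) (w : RACG S.C) : (x * el w).right = x.right := by
  rw [SemidirectProduct.mul_right, el_right, mul_one]

lemma pw_er (b : B) : pw (er b : Gh S Unit).left = 1 := by
  have h1 : (er b : Gh S Unit).left = 1 := SemidirectProduct.left_inr _
  rw [h1, pw_one]

lemma er_right (b : B) : (er b : Gh S Unit).right = b := SemidirectProduct.right_inr _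

lemma pw_el_mul (w : RACG S.C) (x : Gh S Unit) : pw (el w * x).left = w * pw x.left := by
  rw [SemidirectProduct.mul_left, pw_mul, el_right, map_one, pw_el]
  rfl

lemma er_comm (b : B) (v : V) :
    er b * el (Racg.gen S.C v) = (el (Racg.gen S.C (b • v)) * er b : Gh S Unit) := by
  refine gh_ext ?_ ?_
  · rw [pw_mul_gen, pw_el_mul, pw_er, er_right, one_mul, mul_one]
  · rw [mul_el_right, SemidirectProduct.mul_right, el_right, one_mul]

lemma er_conj (b : B) (v : V) : er b * el (Racg.gen S.C v) * (er b)⁻¹ = (el (Racg.gen S.C (b • v)) : Gh S Unit) := by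
  rw [er_comm, mul_inv_cancel_right]

lemma el_one : (el 1 : Gh S Unit) = 1 := gh_ext rfl rfl

lemma el_gen_sq (v : V) : (el (Racg.gen S.C v) : Gh S Unit) * el (Racg.gen S.C v) = 1 := by
  rw [← el_mul, Racg.gen_mul_gen, el_one]

lemma eq_el_er (x : Gh S Unit) : x = el (pw x.left) * er x.right := by
  refine gh_ext ?_ ?_
  · rw [pw_el_mul, pw_er, mul_one]
  · rw [SemidirectProduct.mul_right, el_right, one_mul, er_right]

/-! ### adding an orbit -/

section step
variable {A : Set V} (hA : ∀ (b : B) v, v ∈ A → b • v ∈ A) (v : V)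

variable (B A) in
/-- the union with the orbit of `v` -/
def ext : Set V := A ∪ {w | ∃ b : B, b • v = w}

include hA in
lemma ext_inv : ∀ (b : B) w, w ∈ ext B A v → b • w ∈ ext B A v := by
  rintro b w (hw | ⟨c, rfl⟩)
  · exact Or.inl (hA b w hw)
  · exact Or.inr ⟨b * c, mul_smul b c v⟩

variable (S A) in
/-- the neighbours of `v` in `A` -/
def nb : Set V := {w | S.C.Adj v w ∧ w ∈ A}

variable (S A) in
/-- the full subgraph on the neighbours of `v` in `A` -/
abbrev nbG : SimpleGraph (nb S A v) := S.C.comap Subtype.val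

variable (S A) in
/-- the inclusion of right-angled Coxeter groups -/
noncomputable def iF : RACG (nbG S A v) →* RACG S.C := Racg.map Subtype.val fun _ _ h => h

lemma iF_gen (w : nb S A v) : iF S A v (Racg.gen (nbG S A v) w) = Racg.gen S.C (w : V) := Racg.map_gen _ _ _

lemma iF_injective : Function.Injective (iF S A v) :=
  Racg.map_injective (G := S.C) (G' := nbG S A v) Subtype.val Subtype.val_injective fun _ _ => Iff.rfl

lemma range_iF : (iF S A v).range = Racg.sub (G := S.C) (nb S A v) :=
  (Racg.range_map (G := S.C) (G' := nbG S A v) Subtype.val fun _ _ h => h).trans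
    (congrArg (Racg.sub (G := S.C)) Subtype.range_coe)

include hA in
lemma nb_inv {b : B} (hb : b • v = v) : ∀ w, w ∈ nb S A v → b • w ∈ nb S A v := by
  rintro w ⟨h1, h2⟩
  refine ⟨?_, hA b w h2⟩
  have h3 := (S.adj b v w).2 h1
  rwa [hb] at h3

/-- the subgroup given by the neighbours of `v` in `A` and the stabilizer of `v` -/
def CA : Subgroup (GA S hA) where
  carrier := {x | pw (x : Gh S Unit).left ∈ Racg.sub (G := S.C) (nb S A v) ∧ (x : Gh S Unit).right • v = v}
  one_mem' := by
    refine ⟨?_, one_smul B v⟩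
    show (1 : RACG S.C) ∈ Racg.sub (G := S.C) (nb S A v)
    exact Subgroup.one_mem _
  mul_mem' {x y} hx hy := by
    refine ⟨?_, ?_⟩
    · show pw ((x : Gh S Unit) * (y : Gh S Unit)).left ∈ Racg.sub (G := S.C) (nb S A v)
      rw [SemidirectProduct.mul_left, pw_mul]
      exact Subgroup.mul_mem _ hx.1 (smul_mem S _ (nb_inv hA v hx.2) hy.1)
    · show ((x : Gh S Unit) * (y : Gh S Unit)).right • v = v
      rw [SemidirectProduct.mul_right, mul_smul, hy.2, hx.2]
  inv_mem' {x} hx := by
    have h1 : (x : Gh S Unit).right⁻¹ • v = v := by rw [inv_smul_eq_iff, hx.2]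
    refine ⟨?_, ?_⟩
    · show pw ((x : Gh S Unit)⁻¹).left ∈ Racg.sub (G := S.C) (nb S A v)
      rw [SemidirectProduct.inv_left]
      exact smul_mem S _ (nb_inv hA v h1) (Subgroup.inv_mem _ hx.1)
    · show ((x : Gh S Unit)⁻¹).right • v = v
      rw [SemidirectProduct.inv_right]
      exact h1

/-- the inclusion of the group of `A` -/
noncomputable def incA : GA S hA →* GA S (ext_inv hA v) := Subgroup.inclusion (GA_mono Set.subset_union_left)

lemma coe_incA (x : GA S hA) : ((incA (S := S) hA v x : GA S (ext_inv hA v)) : Gh S Unit) = x := rfl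

/-- the involution of `v` -/
noncomputable def rv : GA S (ext_inv hA v) := ⟨el (Racg.gen S.C v), by
  show Racg.gen S.C v ∈ Racg.sub (G := S.C) (ext B A v)
  exact Racg.gen_mem_sub (Or.inr ⟨1, one_smul _ _⟩)⟩

lemma coe_rv : ((rv (S := S) hA v : GA S (ext_inv hA v)) : Gh S Unit) = el (Racg.gen S.C v) := rfl

lemma comm_of_sub {w : RACG S.C} (hw : w ∈ Racg.sub (G := S.C) {u | S.C.Adj v u}) :
    w * Racg.gen S.C v = Racg.gen S.C v * w := by
  have h4 : Racg.sub (G := S.C) {u | S.C.Adj v u} ≤ Subgroup.centralizer {Racg.gen S.C v} := by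
    refine (Subgroup.closure_le _).2 ?_
    rintro _ ⟨u, hu, rfl⟩
    refine Subgroup.mem_centralizer_iff.2 fun y hy => ?_
    rw [Set.mem_singleton_iff.1 hy]
    exact Racg.gen_comm hu
  exact (Subgroup.mem_centralizer_iff.1 (h4 hw) _ rfl).symm

lemma nb_sub {w : RACG S.C} (h : w ∈ Racg.sub (G := S.C) (nb S A v)) : w ∈ Racg.sub (G := S.C) {u | S.C.Adj v u} :=
  Racg.sub_mono (fun _ h => h.1) h

lemma mem_range_of {x : GA S (ext_inv hA v)} (h1 : (x : Gh S Unit).right • v = v)
    (h2 : pw (x : Gh S Unit).left ∈ Racg.sub (G := S.C) (nb S A v)) :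
    x ∈ ((incA (S := S) hA v).comp (CA (S := S) hA v).subtype).range := by
  have h3 : (x : Gh S Unit) ∈ GA S hA := Racg.sub_mono (fun _ h => h.2) h2
  exact ⟨⟨⟨(x : Gh S Unit), h3⟩, h2, h1⟩, rfl⟩

variable (hv : v ∉ A) (hind : ∀ b : B, ¬ S.C.Adj v (b • v))

include hv hind in
/-- **the amalgamated product** -/
theorem md : MD (N := Unit) (C := fun _ => CA (S := S) hA v) (fun _ => (CA (S := S) hA v).subtype) (incA (S := S) hA v)
    (fun _ => rv (S := S) hA v) where
  ha := Subgroup.inclusion_injective _
  hinj _ := Subgroup.subtype_injective _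
  rr _ := Subtype.ext (el_gen_sq v)
  comm _ x := Subtype.ext (by
    show ((x : GA S hA) : Gh S Unit) * el (Racg.gen S.C v) = el (Racg.gen S.C v) * ((x : GA S hA) : Gh S Unit)
    refine gh_ext ?_ ?_
    · rw [pw_mul_gen, pw_el_mul, x.2.2]
      exact comm_of_sub v (nb_sub v x.2.1)
    · rw [mul_el_right, SemidirectProduct.mul_right, el_right, one_mul])
  half _ := by
    obtain ⟨S₀, h1, h2, h3⟩ := Racg.exists_half S.C v
    have hAv : A ⊆ {u | u ≠ v} := fun u hu h => hv (h ▸ hu)
    -- neighbours of `v` in the extended set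
    have hnb : ∀ {w : RACG S.C}, w ∈ Racg.sub (G := S.C) (ext B A v) → w ∈ Racg.sub (G := S.C) {u | S.C.Adj v u} →
        w ∈ Racg.sub (G := S.C) (nb S A v) := by
      intro w hw hw'
      refine Racg.sub_mono ?_ (mem_inter hw hw')
      rintro u ⟨hu1, hu2 | ⟨b, rfl⟩⟩
      · exact ⟨hu1, hu2⟩
      · exact absurd hu1 (hind b)
    have h3' : ∀ w, w ∉ Racg.sub (G := S.C) {u | S.C.Adj v u} →
        w * Racg.gen S.C v ∉ Racg.sub (G := S.C) {u | S.C.Adj v u} → (w ∈ S₀ ↔ w * Racg.gen S.C v ∈ S₀) := by
      intro w hw hw'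
      constructor
      · exact fun h => (h3 w h hw).1
      · intro h
        have h4 := (h3 _ h hw').1
        rwa [mul_assoc, Racg.gen_mul_gen, mul_one] at h4
    refine ⟨{x | pw (x : Gh S Unit).left ∈ S₀}, fun g hg x => ?_, fun x => ⟨?_, ?_⟩, fun _ g hg => ?_⟩
    · show pw ((g : Gh S Unit) * (x : Gh S Unit)).left ∈ S₀
      rw [SemidirectProduct.mul_left, pw_mul]
      exact h1 _ hg _ (Racg.sub_mono hAv (smul_pw_mem S hA _ x.2))
    · exact h2 _ (nb_sub v x.2.1)
    · intro h
      have h4 : pw ((x : GA S hA) : Gh S Unit).left * Racg.gen S.C v ∈ S₀ := by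
        have h5 : pw (((x : GA S hA) : Gh S Unit) * el (Racg.gen S.C v)).left ∈ S₀ := h
        rwa [pw_mul_gen, x.2.2] at h5
      have h5 : pw ((x : GA S hA) : Gh S Unit).left * Racg.gen S.C v ∉ Racg.sub (G := S.C) {u | S.C.Adj v u} := by
        intro h6
        have h7 := Subgroup.mul_mem _ (Subgroup.inv_mem _ (nb_sub v x.2.1)) h6
        rw [inv_mul_cancel_left] at h7
        exact Racg.gen_notMem (G := S.C) (a := v) (A := {u | S.C.Adj v u}) (fun h8 => S.C.loopless.irrefl v h8) h7
      have h6 := (h3 _ h4 h5).2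
      rw [mul_assoc, Racg.gen_mul_gen, mul_one] at h6
      exact h6 (nb_sub v x.2.1)
    · have hg' := hg rfl
      show pw (g : Gh S Unit).left ∈ S₀ ↔ pw ((g : Gh S Unit) * el (Racg.gen S.C v)).left ∈ S₀
      rw [pw_mul_gen]
      by_cases hgv : (g : Gh S Unit).right • v = v
      · rw [hgv]
        refine h3' _ (fun h4 => hg'.1 (mem_range_of hA v hgv (hnb g.2 h4))) fun h4 => hg'.2 ?_
        have h5 : ((g * rv (S := S) hA v : GA S (ext_inv hA v)) : Gh S Unit) = (g : Gh S Unit) * el (Racg.gen S.C v) := rfl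
        have h6 : pw ((g * rv (S := S) hA v : GA S (ext_inv hA v)) : Gh S Unit).left =
            pw (g : Gh S Unit).left * Racg.gen S.C v := by
          rw [h5, pw_mul_gen, hgv]
        refine mem_range_of hA v ?_ ?_
        · rw [h5, mul_el_right, hgv]
        · rw [h6]
          refine hnb ?_ h4
          rw [← h6]
          exact (g * rv (S := S) hA v).2
      · have h4 : Racg.gen S.C ((g : Gh S Unit).right • v) ∈ Racg.sub (G := S.C) {u | u ≠ v} :=
          Racg.gen_mem_sub (A := {u | u ≠ v}) hgv
        constructor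
        · exact fun h => h1 _ h _ h4
        · intro h
          have h5 := h1 _ h _ h4
          rwa [mul_assoc, Racg.gen_mul_gen, mul_one] at h5
  conn U h1 h2 g h hg := by
    let K : Subgroup (GA S (ext_inv hA v)) :=
      { carrier := {x | ∀ g, g ∈ U ↔ g * x ∈ U}
        one_mem' := fun g => by rw [mul_one]
        mul_mem' := fun {x y} hx hy g => by rw [← mul_assoc, ← hy, ← hx]
        inv_mem' := fun {x} hx g => by
          rw [hx (g * x⁻¹), inv_mul_cancel_right] }
    have hK1 : ∀ x : GA S hA, incA (S := S) hA v x ∈ K := fun x g => by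
      constructor
      · exact fun h => h1 g h x
      · intro h
        have h3 := h1 _ h x⁻¹
        rwa [map_inv, mul_inv_cancel_right] at h3
    have hK2 : rv (S := S) hA v ∈ K := fun g => h2 () g
    have her : ∀ b : B, (er b : Gh S Unit) ∈ GA S hA := fun b => by
      show pw (er b : Gh S Unit).left ∈ Racg.sub (G := S.C) A
      rw [pw_er]
      exact Subgroup.one_mem _
    have hK3 : ∀ w ∈ Racg.sub (G := S.C) (ext B A v), ∀ hw : (el w : Gh S Unit) ∈ GA S (ext_inv hA v),
        (⟨el w, hw⟩ : GA S (ext_inv hA v)) ∈ K := by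
      intro w hw
      induction hw using Subgroup.closure_induction with
      | mem w hw =>
        obtain ⟨u, hu | ⟨b, rfl⟩, rfl⟩ := hw
        · intro hw
          exact hK1 ⟨el (Racg.gen S.C u), Racg.gen_mem_sub hu⟩
        · intro hw
          have h3 : (⟨el (Racg.gen S.C (b • v)), hw⟩ : GA S (ext_inv hA v)) =
              incA (S := S) hA v ⟨er b, her b⟩ * rv (S := S) hA v * (incA (S := S) hA v ⟨er b, her b⟩)⁻¹ :=
            Subtype.ext (er_conj b v).symm
          rw [h3]
          exact K.mul_mem (K.mul_mem (hK1 _) hK2) (K.inv_mem (hK1 _))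
      | one =>
        intro hw
        have h3 : (⟨el 1, hw⟩ : GA S (ext_inv hA v)) = 1 := Subtype.ext el_one
        rw [h3]
        exact K.one_mem
      | mul x y hx hy ihx ihy =>
        intro hw
        have h3 : (⟨el (x * y), hw⟩ : GA S (ext_inv hA v)) = ⟨el x, hx⟩ * ⟨el y, hy⟩ := Subtype.ext (el_mul x y)
        rw [h3]
        exact K.mul_mem (ihx _) (ihy _)
      | inv x hx ih =>
        intro hw
        have h3 : (⟨el x⁻¹, hw⟩ : GA S (ext_inv hA v)) = (⟨el x, hx⟩)⁻¹ := by
          rw [eq_comm, inv_eq_iff_mul_eq_one]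
          exact Subtype.ext ((el_mul x x⁻¹).symm.trans (by rw [mul_inv_cancel]; exact el_one))
        rw [h3]
        exact K.inv_mem (ih _)
    have hK : ∀ x, x ∈ K := by
      intro x
      have h3 : x = ⟨el (pw (x : Gh S Unit).left), x.2⟩ * incA (S := S) hA v ⟨er (x : Gh S Unit).right, her _⟩ :=
        Subtype.ext (eq_el_er _)
      rw [h3]
      exact K.mul_mem (hK3 _ x.2 _) (hK1 _)
    have h3 := (hK (g⁻¹ * h) g).1 hg
    rwa [mul_inv_cancel_left] at h3

/-! ### the edge group is a semidirect product -/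

/-- the action of the stabilizer on the neighbours -/
@[reducible] def nbAct : MulAction (MulAction.stabilizer B v) (nb S A v) where
  smul b w := ⟨(b : B) • (w : V), nb_inv hA v b.2 w w.2⟩
  one_smul w := Subtype.ext (one_smul B (w : V))
  mul_smul b c w := Subtype.ext (mul_smul (b : B) (c : B) (w : V))

/-- the graph on the neighbours with the action of the stabilizer -/
@[reducible] def nbH : @Hyp (nb S A v) (MulAction.stabilizer B v) _ (nbAct (S := S) hA v) :=
  let _ := nbAct (S := S) hA v
  ⟨nbG S A v, fun b u w => S.adj (b : B) (u : V) (w : V)⟩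

lemma pw_pair (a c : RACG S.C) (b d : B) : pw (el a * er b * (el c * er d) : Gh S Unit).left =
    a * Racg.map (fun t => b • t) (fun u v h => (S.adj b u v).2 h) c := by
  rw [SemidirectProduct.mul_left, pw_mul, pw_el_mul, pw_er, mul_one, SemidirectProduct.mul_right, el_right, one_mul,
    er_right]
  show a * Racg.map _ _ (pw (el c * er d : Gh S Unit).left) = _
  rw [pw_el_mul, pw_er, mul_one]

end step

section edge
variable {A : Set V} (hA : ∀ (b : B) v, v ∈ A → b • v ∈ A) (v : V) [MulAction (MulAction.stabilizer B v) (nb S A v)]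
  (S' : Hyp (nb S A v) (MulAction.stabilizer B v))
  (h1 : ∀ (b : MulAction.stabilizer B v) (w : nb S A v), ((b • w : nb S A v) : V) = (b : B) • (w : V))
  (h2 : ∀ u w : nb S A v, S'.C.Adj u w ↔ S.C.Adj (u : V) (w : V))

/-- the inclusion of right-angled Coxeter groups -/
noncomputable def jE : RACG S'.C →* RACG S.C := Racg.map Subtype.val fun u w h => (h2 u w).1 h

lemma jE_gen (w : nb S A v) : jE v S' h2 (Racg.gen S'.C w) = Racg.gen S.C (w : V) := Racg.map_gen _ _ _

lemma jE_injective : Function.Injective (jE v S' h2) :=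
  Racg.map_injective (G := S.C) (G' := S'.C) Subtype.val Subtype.val_injective h2

lemma range_jE : (jE v S' h2).range = Racg.sub (G := S.C) (nb S A v) :=
  (Racg.range_map (G := S.C) (G' := S'.C) Subtype.val fun u w h => (h2 u w).1 h).trans
    (congrArg (Racg.sub (G := S.C)) Subtype.range_coe)

lemma jE_mem (w : RACG S'.C) : jE v S' h2 w ∈ Racg.sub (G := S.C) (nb S A v) := by
  rw [← range_jE v S' h2]
  exact ⟨w, rfl⟩

include h1 in
lemma jE_map (b : MulAction.stabilizer B v) (w : RACG S'.C) :
    jE v S' h2 (Racg.map (fun t => b • t) (fun u w h => (S'.adj b u w).2 h) w) =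
      Racg.map (fun t => (b : B) • t) (fun u w h => (S.adj (b : B) u w).2 h) (jE v S' h2 w) := by
  have h3 : (jE v S' h2).comp (Racg.map (fun t => b • t) (fun u w h => (S'.adj b u w).2 h)) =
      (Racg.map (fun t => (b : B) • t) (fun u w h => (S.adj (b : B) u w).2 h)).comp (jE v S' h2) :=
    Racg.hom_ext fun t => by
      rw [MonoidHom.comp_apply, MonoidHom.comp_apply, Racg.map_gen, jE_gen, jE_gen, Racg.map_gen, h1]
  exact DFunLike.congr_fun h3 w

/-- an element of the edge group -/
noncomputable def ce (x : Gh S' Unit) : CA (S := S) hA v :=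
  ⟨⟨el (jE v S' h2 (pw x.left)) * er (x.right : B), by
    show pw (el (jE v S' h2 (pw x.left)) * er (x.right : B) : Gh S Unit).left ∈ Racg.sub (G := S.C) A
    rw [pw_el_mul, pw_er, mul_one]
    exact Racg.sub_mono (fun _ h => h.2) (jE_mem v S' h2 _)⟩, by
    refine ⟨?_, ?_⟩
    · show pw (el (jE v S' h2 (pw x.left)) * er (x.right : B) : Gh S Unit).left ∈ Racg.sub (G := S.C) (nb S A v)
      rw [pw_el_mul, pw_er, mul_one]
      exact jE_mem v S' h2 _
    · show (el (jE v S' h2 (pw x.left)) * er (x.right : B) : Gh S Unit).right • v = v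
      rw [SemidirectProduct.mul_right, el_right, one_mul, er_right]
      exact x.right.2⟩

lemma coe_ce (x : Gh S' Unit) :
    ((ce hA v S' h2 x : GA S hA) : Gh S Unit) = el (jE v S' h2 (pw x.left)) * er (x.right : B) := rfl

lemma ce_injective : Function.Injective (ce hA v S' h2) := by
  intro x y h
  have h3 : (el (jE v S' h2 (pw x.left)) * er (x.right : B) : Gh S Unit) =
      el (jE v S' h2 (pw y.left)) * er (y.right : B) := by
    rw [← coe_ce hA, ← coe_ce hA, h]
  have h4 : pw (el (jE v S' h2 (pw x.left)) * er (x.right : B) : Gh S Unit).left =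
      pw (el (jE v S' h2 (pw y.left)) * er (y.right : B) : Gh S Unit).left := by
    rw [h3]
  have h5 : (el (jE v S' h2 (pw x.left)) * er (x.right : B) : Gh S Unit).right =
      (el (jE v S' h2 (pw y.left)) * er (y.right : B) : Gh S Unit).right := by
    rw [h3]
  rw [pw_el_mul, pw_er, mul_one, pw_el_mul, pw_er, mul_one] at h4
  rw [SemidirectProduct.mul_right, el_right, one_mul, er_right, SemidirectProduct.mul_right, el_right, one_mul,
    er_right] at h5
  exact gh_ext (jE_injective v S' h2 h4) (Subtype.ext h5)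

lemma ce_surjective : Function.Surjective (ce hA v S' h2) := by
  intro x
  have h3 := x.2.1
  rw [← range_jE v S' h2] at h3
  obtain ⟨w, hw⟩ := h3
  refine ⟨el w * er ⟨((x : GA S hA) : Gh S Unit).right, x.2.2⟩, Subtype.ext (Subtype.ext ?_)⟩
  rw [coe_ce, pw_el_mul, pw_er, mul_one, SemidirectProduct.mul_right, el_right, one_mul, er_right, hw]
  exact (eq_el_er _).symm

include h1 in
lemma ce_mul (x y : Gh S' Unit) : ce hA v S' h2 (x * y) = ce hA v S' h2 x * ce hA v S' h2 y := by
  refine Subtype.ext (Subtype.ext ?_)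
  show (el (jE v S' h2 (pw (x * y).left)) * er ((x * y).right : B) : Gh S Unit) =
    el (jE v S' h2 (pw x.left)) * er (x.right : B) * (el (jE v S' h2 (pw y.left)) * er (y.right : B))
  have h3 : pw (x * y).left = pw x.left * Racg.map (fun t => x.right • t) (fun u w h => (S'.adj x.right u w).2 h)
      (pw y.left) := by
    rw [SemidirectProduct.mul_left, pw_mul]
    rfl
  refine gh_ext ?_ ?_
  · rw [pw_pair, pw_el_mul, pw_er, mul_one, h3, map_mul, jE_map v S' h1 h2]
  · rw [SemidirectProduct.mul_right, SemidirectProduct.mul_right, SemidirectProduct.mul_right,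
      SemidirectProduct.mul_right, SemidirectProduct.mul_right, el_right, el_right, el_right, er_right, er_right,
      er_right, one_mul, one_mul, one_mul]
    rfl

/-- **the edge group is a semidirect product** -/
noncomputable def caEquiv : Gh S' Unit ≃* CA (S := S) hA v :=
  MulEquiv.ofBijective (MonoidHom.mk' (ce hA v S' h2) (ce_mul hA v S' h1 h2))
    ⟨ce_injective hA v S' h2, ce_surjective hA v S' h2⟩

end edge

end RTK
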