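import Pool.Agent.RTK.Grp
import Pool.Agent.Singer.Gen.MDRes
import Pool.Agent.Cm.Iso

/-!
# Reflection groups with a group of symmetries: the induction over the orbits of reflections

* `md_h` : an amalgam of the type `MD` has the same numbers as the vertex group, if the numbers of the edge group vanish;
* `Ok S i v` : no vertex of the orbit of `v` is adjacent to `v`, and the edge groups `CA` (given by the stabilizer of `v` and
  the neighbours of `v` in an invariant set) have resolutions and their numbers in the degrees `i` and `i - 1` vanish;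
* `exists_full` : the number of the semidirect product in degree `i` is the number of the group of an invariant set `A`.
-/

set_option autoImplicit false
set_option linter.unusedSectionVars false
set_option linter.unusedVariables false

namespace RTK

open Singer Cm

/-- the numbers of an amalgam of the type `MD` -/
theorem md_h {A C M : Type} [Group A] [Group C] [Group M] {inj : Unit → C →* A} {a : A →* M} {r : Unit → M}
    (h : MD (N := Unit) (C := fun _ => C) inj a r) (RC : Res.{0} C) (RA : Res.{0} A) :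
    ∃ R : Res.{0} M, ∀ i, RC.toPreRes.toHC.h i = 0 → (∀ k, k + 1 = i → RC.toPreRes.toHC.h k = 0) →
      R.toPreRes.toHC.h i = RA.toPreRes.toHC.h i := by
  have h1 : ∀ η : Unit, Nonempty (PreMap (RC.toPreRes.ind (inj η) (h.hinj η)) RA.toPreRes) :=
    fun η => exists_premap _ RA
  let H : ∀ η : Unit, PreMap (RC.toPreRes.ind (inj η) (h.hinj η)) RA.toPreRes := fun η => (h1 η).some
  obtain ⟨R, hR⟩ := h.exists_res (RC := fun _ => RC) (RA := RA) H
  have hk : ∀ k, RC.toPreRes.toHC.h k = 0 →
      (h.map (RC := fun _ => RC.toPreRes) (RA := RA.toPreRes) H).kap k = 0 := by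
    intro k hk
    have h2 := (h.map (RC := fun _ => RC.toPreRes) (RA := RA.toPreRes) H).toHMap.kap_nonneg k
    have h3 := (h.map (RC := fun _ => RC.toPreRes) (RA := RA.toPreRes) H).toHMap.kap_le k
    have h4 := h.XX_h (fun _ => RC.toPreRes) k
    simp only [Finset.univ_unique, Finset.sum_const, Finset.card_singleton, one_smul, hk] at h4
    have h5 : ((h.XX fun _ => RC.toPreRes).toHC.h k) = 0 := by linarith
    exact le_antisymm (h3.trans (le_of_eq h5)) h2
  refine ⟨R, fun i h0 h1 => ?_⟩
  rw [hR]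
  cases i with
  | zero =>
    have h2 := h.h_zero (RC := fun _ => RC.toPreRes) (RA := RA.toPreRes) H
    rw [hk 0 h0] at h2
    simp only [Finset.univ_unique, Finset.sum_const, Finset.card_singleton, one_smul, h0] at h2
    linarith
  | succ i =>
    have h2 := h.h_succ (RC := fun _ => RC.toPreRes) (RA := RA.toPreRes) H i
    rw [hk _ h0, hk _ (h1 i rfl)] at h2
    simp only [Finset.univ_unique, Finset.sum_const, Finset.card_singleton, one_smul, h0] at h2
    linarith

section ind
variable {V B : Type} [Group B] [MulAction B V] (S : Hyp V B)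

/-- the conditions for a vertex -/
structure Ok (i : ℕ) (v : V) : Prop where
  ind : ∀ b : B, ¬ S.C.Adj v (b • v)
  res : ∀ {A : Set V} (hA : ∀ (b : B) v, v ∈ A → b • v ∈ A), Nonempty (Res.{0} (CA (S := S) hA v))
  van : ∀ {A : Set V} (hA : ∀ (b : B) v, v ∈ A → b • v ∈ A) (R : Res.{0} (CA (S := S) hA v)), R.toPreRes.toHC.h i = 0
  van' : ∀ {A : Set V} (hA : ∀ (b : B) v, v ∈ A → b • v ∈ A) (R : Res.{0} (CA (S := S) hA v)) (k : ℕ), k + 1 = i →
    R.toPreRes.toHC.h k = 0

variable {S}

/-- one orbit -/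
theorem exists_orbit {i : ℕ} {A : Set V} (hA : ∀ (b : B) v, v ∈ A → b • v ∈ A) {v : V} (hv : v ∉ A) (h : Ok S i v)
    (R : Res.{0} (GA S hA)) :
    ∃ R' : Res.{0} (GA S (ext_inv hA v)), R'.toPreRes.toHC.h i = R.toPreRes.toHC.h i := by
  obtain ⟨RC⟩ := h.res hA
  obtain ⟨R', hR'⟩ := md_h (md (S := S) hA v hv h.ind) RC R
  exact ⟨R', hR' i (h.van hA RC) (h.van' hA RC)⟩

/-- finitely many orbits -/
theorem exists_orbits {i : ℕ} (O : Finset V) : ∀ (A : Set V) (hA : ∀ (b : B) v, v ∈ A → b • v ∈ A),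
    (∀ v ∈ O, v ∉ A → Ok S i v) → ∀ R : Res.{0} (GA S hA), ∃ (D : Set V) (hD : ∀ (b : B) v, v ∈ D → b • v ∈ D)
      (R' : Res.{0} (GA S hD)), (∀ w, w ∈ A → w ∈ D) ∧ (∀ v ∈ O, ∀ b : B, b • v ∈ D) ∧
        R'.toPreRes.toHC.h i = R.toPreRes.toHC.h i := by
  classical
  induction O using Finset.induction_on with
  | empty =>
    intro A hA _ R
    exact ⟨A, hA, R, fun _ h => h, fun v hv => absurd hv (Finset.notMem_empty v), rfl⟩
  | insert o O ho ih =>
    intro A hA hok R
    by_cases hoA : o ∈ A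
    · obtain ⟨D, hD, R', h1, h2, h3⟩ := ih A hA (fun v hv => hok v (Finset.mem_insert_of_mem hv)) R
      refine ⟨D, hD, R', h1, fun v hv b => ?_, h3⟩
      rcases Finset.mem_insert.1 hv with rfl | hv
      · exact h1 _ (hA b _ hoA)
      · exact h2 v hv b
    · obtain ⟨R₁, hR₁⟩ := exists_orbit hA hoA (hok o (Finset.mem_insert_self o O) hoA) R
      obtain ⟨D, hD, R', h1, h2, h3⟩ := ih (ext B A o) (ext_inv hA o)
        (fun v hv hvA => hok v (Finset.mem_insert_of_mem hv) fun h => hvA (Or.inl h)) R₁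
      refine ⟨D, hD, R', fun w hw => h1 w (Or.inl hw), fun v hv b => ?_, h3.trans hR₁⟩
      rcases Finset.mem_insert.1 hv with rfl | hv
      · exact h1 _ (Or.inr ⟨b, rfl⟩)
      · exact h2 v hv b

lemma ga_eq_top {D : Set V} (hD : ∀ (b : B) v, v ∈ D → b • v ∈ D) (h : ∀ v, v ∈ D) : GA S hD = ⊤ := by
  refine eq_top_iff.2 fun x _ => ?_
  show pw x.left ∈ Racg.sub (G := S.C) D
  have h1 : D = Set.univ := Set.eq_univ_of_forall h
  have h2 : Racg.sub (G := S.C) D = ⊤ := by
    rw [h1]
    unfold Racg.sub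
    rw [Set.image_univ]
    exact Racg.closure_gen
  rw [h2]
  exact Subgroup.mem_top _

/-- **the numbers of the semidirect product and of the group of an invariant set** -/
theorem exists_full {i : ℕ} {A : Set V} (hA : ∀ (b : B) v, v ∈ A → b • v ∈ A) (O : Finset V)
    (hO : ∀ v, v ∉ A → ∃ o ∈ O, ∃ b : B, b • o = v) (hok : ∀ v, v ∉ A → Ok S i v) (R : Res.{0} (GA S hA)) :
    ∃ R' : Res.{0} (Gh S Unit), R'.toPreRes.toHC.h i = R.toPreRes.toHC.h i := by
  obtain ⟨D, hD, R₁, h1, h2, h3⟩ := exists_orbits (S := S) (i := i) O A hA (fun v _ hv => hok v hv) R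
  have h4 : ∀ v, v ∈ D := by
    intro v
    by_cases hv : v ∈ A
    · exact h1 v hv
    · obtain ⟨o, ho, b, rfl⟩ := hO v hv
      exact h2 o ho b
  have e : Gh S Unit ≃* GA S hD :=
    (Subgroup.topEquiv (G := Gh S Unit)).symm.trans (MulEquiv.subgroupCongr (ga_eq_top hD h4).symm)
  obtain ⟨R', hR'⟩ := Res.exists_iso e R₁
  exact ⟨R', (hR' i).trans h3⟩

end ind

end RTK
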