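import Pool.Agent.Cm.Main
import Pool.Agent.Singer.BettiStmt
import Pool.Agent.Singer.FinBetti

/-!
# The Morse inequalities for mirrored groups in polynomial form

`exists_r` : the difference between the sum of the `ℓ²`-Betti numbers of the mirrored groups and those of the group is
`r i + r (i + 1)` in the degree `i`, with `r ≥ 0` and `r 0 = 0` (in terms of the Poincare series: it is `(1 + t) R(t)`).
-/

set_option autoImplicit false

namespace RTK

open Singer CubeComplex

/-- the Morse inequalities in polynomial form -/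
theorem exists_r {Γ X J : Type} [Group Γ] [MulAction Γ X] [Fintype J] {M : SimpleGraph X} (hM : CubicalAction Γ M)
    (x : J → X) (hx : ∀ v, ∃! j : J, ∃ g : Γ, g • x j = v) (R : FinRes Γ) :
    ∃ r : ℕ → ℝ, r 0 = 0 ∧ (∀ i, 0 ≤ r i) ∧ ∀ i, ∀ SM : ∀ j, Res.{0} (MirGroup Γ M (x j)),
      R.betti i + r i + r (i + 1) = ∑ j, (SM j).toPreRes.toHC.h i := by
  obtain ⟨SM, h1⟩ := Cm.cm_strong hM x hx
  have e0 : R.toRes.toPreRes.toHC.h = R.betti := funext fun k => (FinRes.betti_eq R k).symm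
  have h2 : ∀ i, Cm.ES.alt R.betti i ≤ ∑ q, Cm.ES.alt (SM q).toPreRes.toHC.h i := by
    intro i
    have h3 := (h1 R.toRes i).2
    rwa [e0] at h3
  have h4 : ∀ i (SM' : ∀ j, Res.{0} (MirGroup Γ M (x j))),
      ∑ j, (SM' j).toPreRes.toHC.h i = ∑ j, (SM j).toPreRes.toHC.h i := fun i SM' =>
    Finset.sum_congr rfl fun j _ => Res.h_eq (SM' j) (SM j) i
  refine ⟨fun i => Nat.rec 0 (fun k _ => ∑ q, Cm.ES.alt (SM q).toPreRes.toHC.h k - Cm.ES.alt R.betti k) i, rfl, ?_, ?_⟩
  · rintro (_ | i)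
    · exact le_refl _
    · exact sub_nonneg.2 (h2 i)
  · intro i SM'
    rw [h4]
    cases i with
    | zero =>
      show R.betti 0 + 0 + (∑ q, Cm.ES.alt (SM q).toPreRes.toHC.h 0 - Cm.ES.alt R.betti 0) = _
      simp only [Cm.ES.alt_zero]
      ring
    | succ i =>
      show R.betti (i + 1) + (∑ q, Cm.ES.alt (SM q).toPreRes.toHC.h i - Cm.ES.alt R.betti i) +
        (∑ q, Cm.ES.alt (SM q).toPreRes.toHC.h (i + 1) - Cm.ES.alt R.betti (i + 1)) = _
      simp only [Cm.ES.alt_succ, Finset.sum_sub_distrib]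
      ring

end RTK
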