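import Pool.Agent.RTK.Mir
import Pool.Agent.RTK.Morse

/-!
# The inequalities with kept edges
-/

set_option autoImplicit false

open scoped Pointwise

namespace RTK

open Singer CubeComplex Cm

/-- the mirrored group of a vertex and the group of the kept edges -/
theorem exists_res_mir {Γ X : Type} [Group Γ] [MulAction Γ X] {M : SimpleGraph X} (hM : CubicalAction Γ M) (x : X) {m : ℕ}
    (A : Set (M.neighborSet x)) (hA : ∀ v, v ∉ A → GoodEdge m Γ M x v) {i : ℕ} (hi : m + 2 < 2 * i ∨ A = Set.univ)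
    (RP : FinRes (part Γ M x A)) : ∃ S : Res.{0} (MirGroup Γ M x), S.toPreRes.toHC.h i = RP.betti i := by
  rcases hi with hi | hi
  · obtain ⟨S, hS⟩ := exists_mir hM x A hA hi RP.toRes
    exact ⟨S, hS.trans (FinRes.betti_eq _ i).symm⟩
  · subst hi
    obtain ⟨S, hS⟩ := exists_univ (M := M) x RP.toRes
    exact ⟨S, (hS i).trans (FinRes.betti_eq _ i).symm⟩

/-- the same numbers, for resolutions by free modules -/
theorem betti_mir {Γ X : Type} [Group Γ] [MulAction Γ X] {M : SimpleGraph X} (hM : CubicalAction Γ M) (x : X) {m : ℕ}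
    (A : Set (M.neighborSet x)) (hA : ∀ v, v ∉ A → GoodEdge m Γ M x v) {i : ℕ} (hi : m + 2 < 2 * i ∨ A = Set.univ)
    (RP : FinRes (part Γ M x A)) (RM : FinRes (MirGroup Γ M x)) : RM.betti i = RP.betti i := by
  obtain ⟨S, hS⟩ := exists_res_mir hM x A hA hi RP
  rw [FinRes.betti_eq RM i, ← hS]
  exact Res.h_eq RM.toRes S i

theorem main {Γ X J : Type} [Group Γ] [MulAction Γ X] [Fintype J] (M : SimpleGraph X) (hM : CubicalAction Γ M)
    (x : J → X) (hx : ∀ v, ∃! j : J, ∃ g : Γ, g • x j = v) (m : ℕ) (A : ∀ j, Set (M.neighborSet (x j)))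
    (hA : ∀ j, ∀ v, v ∉ A j → GoodEdge m Γ M (x j) v) (R : FinRes Γ) (RP : ∀ j, FinRes (part Γ M (x j) (A j))) :
    ∃ r : ℕ → ℝ, r 0 = 0 ∧ (∀ i, 0 ≤ r i) ∧ ∀ i, (m + 2 < 2 * i ∨ ∀ j, A j = Set.univ) →
      R.betti i + r i + r (i + 1) = ∑ j, (RP j).betti i := by
  obtain ⟨r, h1, h2, h3⟩ := exists_r hM x hx R
  refine ⟨r, h1, h2, fun i hi => ?_⟩
  have h4 : ∀ j, ∃ S : Res.{0} (MirGroup Γ M (x j)), S.toPreRes.toHC.h i = (RP j).betti i := fun j =>
    exists_res_mir hM (x j) (A j) (hA j) (hi.imp id fun h => h j) (RP j)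
  choose S hS using h4
  rw [h3 i S]
  exact Finset.sum_congr rfl fun j _ => hS j

end RTK
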