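import Pool.Agent.Cm.Middle
import Pool.Agent.Npc.Sph
import Pool.Agent.Singer.Upper

/-!
# Full subgraphs of flag homology spheres

* `exists_res_racg` : the right-angled Coxeter group of a finite graph has a resolution of finite type;
* `h_full` : if `K` is a full subgraph of a flag homology sphere of dimension `m - 1` then the `ℓ²`-Betti numbers of its
  right-angled Coxeter group vanish in the degrees `i` with `m < 2 * i`.
-/

set_option autoImplicit false
set_option linter.unusedSectionVars false
set_option linter.unusedVariables false

namespace RTK

open Singer Cm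

/-- the right-angled Coxeter group of a finite graph has a resolution -/
theorem exists_res_racg {W : Type} [Finite W] (K : SimpleGraph W) : Nonempty (Res.{0} (RACG K)) := by
  classical
  let _ : Fintype W := Fintype.ofFinite W
  exact ⟨davisResC K (r := rk) rk_inj⟩

/-- flag homology spheres satisfy the hereditary vanishing condition -/
theorem good_of_hsphere {m : ℕ} {V : Type} [Fintype V] {T : SimpleGraph V} (h : SingerCube.HSphere m T) : Good m T := by
  classical
  induction m generalizing V with
  | zero => exact h
  | succ m ih =>
    rw [good_succ_iff]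
    exact ⟨fun i hi => Npc.bet_of_hsphere h hi, fun v => ih (h.2.2 v)⟩

/-- a graph embedding is an isomorphism with a full subgraph -/
noncomputable def isoRes {V W : Type} {T : SimpleGraph V} {K : SimpleGraph W} (e : K ↪g T) (A : Finset V)
    (hA : ∀ v, v ∈ A ↔ ∃ w, e w = v) : K ≃g res T A :=
  isoOfBij (fun w => ⟨e w, (hA _).2 ⟨w, rfl⟩⟩)
    ⟨fun x y h => e.injective (Subtype.mk.inj h), by
      rintro ⟨v, hv⟩
      obtain ⟨w, rfl⟩ := (hA v).1 hv
      exact ⟨w, rfl⟩⟩
    (fun x y => e.map_adj_iff)

/-- **vanishing above the middle dimension for the full subgraphs of flag homology spheres** -/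
theorem h_full {m : ℕ} {V W : Type} {T : SimpleGraph V} {K : SimpleGraph W} (hT : SingerCube.HSphere m T) (e : K ↪g T)
    (S : Res.{0} (RACG K)) {i : ℕ} (hi : m < 2 * i) : S.toPreRes.toHC.h i = 0 := by
  classical
  have hV : Finite V := CD.finite_of_hsphere hT
  have hW : Finite W := Finite.of_injective e e.injective
  let _ : Fintype V := Fintype.ofFinite V
  let _ : Fintype W := Fintype.ofFinite W
  rw [Mid.h_racg K S i, bet_iso (isoRes e (Finset.univ.filter fun v => ∃ w, e w = v) (by simp)) i]
  exact bet_upper (good_of_hsphere hT) _ i hi

end RTK
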