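import Pool.Agent.RTK.Semi
import Pool.Agent.RTK.Van
import Pool.Agent.RTK.Grp

/-!
# The groups with a normal right-angled Coxeter group of a full subgraph of a flag homology sphere and a finite complement

* `h_semi` : their `ℓ²`-Betti numbers vanish above the middle dimension;
* `exists_res_ca`, `h_ca` : the edge groups `CA`, if the link of the vertex `v` is a full subgraph of a flag homology sphere
  and the stabilizer of `v` is finite.
-/

set_option autoImplicit false
set_option linter.unusedSectionVars false
set_option linter.unusedVariables false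

namespace RTK

open Singer Cm

section semi
variable {m : ℕ} {V W Q C : Type} [Group Q] [Finite Q] [Group C] [MulAction Q W] (S : Hyp W Q) {T : SimpleGraph V}

/-- vanishing above the middle dimension -/
theorem h_semi (hT : SingerCube.HSphere m T) (e : S.C ↪g T) (R : Res.{0} (Gh S Unit)) {i : ℕ} (hi : m < 2 * i) :
    R.toPreRes.toHC.h i = 0 := by
  have hV : Finite V := CD.finite_of_hsphere hT
  have hW : Finite W := Finite.of_injective e e.injective
  obtain ⟨R'⟩ := exists_res_racg S.C
  rw [Mid.h_gh S R R' i, h_full hT e R' hi, zero_div]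

/-- the same for an isomorphic group -/
theorem h_semi_iso (hT : SingerCube.HSphere m T) (e : S.C ↪g T) (E : Gh S Unit ≃* C) (R : Res.{0} C) {i : ℕ}
    (hi : m < 2 * i) : R.toPreRes.toHC.h i = 0 := by
  obtain ⟨R', hR'⟩ := Res.exists_iso E R
  rw [← hR' i]
  exact h_semi S hT e R' hi

/-- resolutions -/
theorem exists_res_iso (hT : SingerCube.HSphere m T) (e : S.C ↪g T) (E : Gh S Unit ≃* C) : Nonempty (Res.{0} C) := by
  have hV : Finite V := CD.finite_of_hsphere hT
  have hW : Finite W := Finite.of_injective e e.injective
  obtain ⟨R⟩ := exists_res_semi S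
  obtain ⟨R', -⟩ := Res.exists_iso E.symm R
  exact ⟨R'⟩

end semi

section ca
variable {V B : Type} [Group B] [MulAction B V] {S : Hyp V B} {A : Set V} (hA : ∀ (b : B) v, v ∈ A → b • v ∈ A)
  {m : ℕ} {T : Type} {K : SimpleGraph T} {v : V}

variable (S A v) in
/-- the neighbours of `v` in `A` are a full subgraph of the link of `v` -/
def nbEmb : nbG S A v ↪g SingerPD.link S.C v where
  toFun w := ⟨w, w.2.1⟩
  inj' u w h := Subtype.ext (congrArg (fun y : {w // S.C.Adj v w} => (y : V)) h)
  map_rel_iff' := Iff.rfl

/-- the edge groups have resolutions -/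
theorem exists_res_ca (hK : SingerCube.HSphere m K) (e : SingerPD.link S.C v ↪g K)
    (hs : Finite (MulAction.stabilizer B v)) : Nonempty (Res.{0} (CA (S := S) hA v)) := by
  let _ : MulAction (MulAction.stabilizer B v) (nb S A v) := nbAct hA v
  exact exists_res_iso (nbH hA v) hK ((nbEmb S A v).trans e)
    (caEquiv hA v (nbH hA v) (fun _ _ => rfl) fun _ _ => Iff.rfl)

/-- **the numbers of the edge groups vanish above the middle dimension** -/
theorem h_ca (hK : SingerCube.HSphere m K) (e : SingerPD.link S.C v ↪g K)
    (hs : Finite (MulAction.stabilizer B v)) (R : Res.{0} (CA (S := S) hA v)) {i : ℕ} (hi : m < 2 * i) :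
    R.toPreRes.toHC.h i = 0 := by
  let _ : MulAction (MulAction.stabilizer B v) (nb S A v) := nbAct hA v
  exact h_semi_iso (nbH hA v) hK ((nbEmb S A v).trans e)
    (caEquiv hA v (nbH hA v) (fun _ _ => rfl) fun _ _ => Iff.rfl) R hi

end ca

end RTK
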