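import Pool.Agent.RTK.Def
import Pool.Agent.RTK.Ind
import Pool.Agent.RTK.OkOf
import Pool.Agent.Cm.Pres
import Pool.Agent.Cm.BetEx

/-!
# The mirrored group of a vertex with good edges

* `exists_reps` : the stabilizer of a vertex has finitely many orbits on its neighbours;
* `partEquiv` : the group `part Γ M x A` is the group of the saturation of `A` in the semidirect product of the right-angled
  Coxeter group of the link with the stabilizer;
* `exists_mir` : if the edges which are not in `A` are good then the numbers of the mirrored group and of `part Γ M x A`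
  are the same in the degrees `i` with `m + 2 < 2 * i`;
* `part_univ`.
-/

set_option autoImplicit false
set_option linter.unusedSectionVars false
set_option linter.unusedVariables false

open scoped Pointwise

namespace RTK

open Singer CubeComplex Cm

section act
variable {Γ X : Type} [Group Γ] [MulAction Γ X] {M : SimpleGraph X}

/-- the edges are the cubes of dimension one -/
lemma isCube_one {a b : X} (h : M.Adj a b) : IsCube M 1 {a, b} := by
  have hab : a ≠ b := h.ne
  refine ⟨fun f => if f 0 then a else b, fun f g hfg => ?_, ?_, fun f g => ?_⟩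
  · funext k
    obtain rfl : k = 0 := Subsingleton.elim _ _
    by_cases hf : f 0 = true <;> by_cases hg : g 0 = true
    · rw [hf, hg]
    · simp only [hf, hg] at hfg
      exact absurd hfg hab
    · simp only [hf, hg] at hfg
      exact absurd hfg.symm hab
    · rw [Bool.not_eq_true] at hf hg
      rw [hf, hg]
  · ext y
    constructor
    · rintro ⟨f, rfl⟩
      by_cases hf : f 0 = true
      · left
        simp [hf]
      · right
        simp [hf]
    · rintro (rfl | rfl)
      · exact ⟨fun _ => true, by simp⟩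
      · exact ⟨fun _ => false, by simp⟩
  · constructor
    · intro h1
      refine ⟨0, fun l => ?_⟩
      obtain rfl : l = 0 := Subsingleton.elim _ _
      refine ⟨fun _ => rfl, fun _ h2 => ?_⟩
      simp only [h2] at h1
      exact M.loopless.irrefl _ h1
    · rintro ⟨k, hk⟩
      obtain rfl : k = 0 := Subsingleton.elim _ _
      have h2 := (hk 0).2 rfl
      by_cases hf : f 0 = true <;> by_cases hg : g 0 = true
      · exact absurd (hf.trans hg.symm) h2
      · simp only [hf, hg]
        exact h
      · simp only [hf, hg]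
        exact h.symm
      · rw [Bool.not_eq_true] at hf hg
        exact absurd (hf.trans hg.symm) h2

/-- **finitely many orbits of neighbours** -/
theorem exists_reps (hM : CubicalAction Γ M) (x : X) :
    ∃ O : Finset (M.neighborSet x), ∀ v : M.neighborSet x, ∃ o ∈ O, ∃ g : Γ, g • x = x ∧ g • (o : X) = v := by
  classical
  obtain ⟨F, hF, hF'⟩ := hM.cocompact
  have h1 : ∀ v : M.neighborSet x, ∃ D ∈ F, ∃ g : Γ, g • D = ({x, (v : X)} : Set X) := fun v => hF' 1 _ (isCube_one v.2)
  choose D hD g hg using h1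
  let key : M.neighborSet x → Set X × X := fun v => (D v, (g v)⁻¹ • x)
  have hfin : (Set.range key).Finite := by
    have h2 : Set.range key ⊆ ⋃ C ∈ {C ∈ F | C.Finite}, (fun y => (C, y)) '' C := by
      rintro _ ⟨v, rfl⟩
      have h3 : D v = (g v)⁻¹ • ({x, (v : X)} : Set X) := by rw [← hg v, inv_smul_smul]
      have h4 : (D v).Finite := by
        rw [h3]
        exact Set.Finite.smul_set (Set.toFinite _)
      refine Set.mem_biUnion (x := D v) ⟨hD v, h4⟩ ⟨(g v)⁻¹ • x, ?_, rfl⟩
      rw [h3]
      exact Set.smul_mem_smul_set (Set.mem_insert _ _)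
    refine Set.Finite.subset (Set.Finite.biUnion (hF.subset fun _ h => h.1) fun C hC => ?_) h2
    exact Set.Finite.image _ hC.2
  have h2 : ∀ k : Set.range key, ∃ v, key v = k := fun k => k.2
  choose s hs using h2
  have hfin' : Finite (Set.range key) := hfin
  let _ : Fintype (Set.range key) := Fintype.ofFinite _
  refine ⟨Finset.univ.image s, fun v => ⟨s ⟨key v, v, rfl⟩, Finset.mem_image_of_mem _ (Finset.mem_univ _), ?_⟩⟩
  have h3 : key (s ⟨key v, v, rfl⟩) = key v := hs ⟨key v, v, rfl⟩
  generalize s ⟨key v, v, rfl⟩ = o at h3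
  have h4 : D o = D v := congrArg Prod.fst h3
  have h5 : (g o)⁻¹ • x = (g v)⁻¹ • x := congrArg Prod.snd h3
  have h6 : (g v * (g o)⁻¹) • x = x := by
    rw [mul_smul, h5, smul_inv_smul]
  refine ⟨g v * (g o)⁻¹, h6, ?_⟩
  have h7 : (g v * (g o)⁻¹) • ({x, (o : X)} : Set X) = {x, (v : X)} := by
    rw [← hg o, ← hg v, mul_smul, inv_smul_smul, h4]
  have h8 : (g v * (g o)⁻¹) • (o : X) ∈ ({x, (v : X)} : Set X) := by
    rw [← h7]
    exact Set.smul_mem_smul_set (Or.inr rfl)
  rcases h8 with h8 | h8
  · exfalso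
    have h9 : (o : X) = x := MulAction.injective (g v * (g o)⁻¹) (h8.trans h6.symm)
    exact o.2.ne h9.symm
  · exact h8

end act

section equiv
variable {Γ X : Type} [Group Γ] [MulAction Γ X] {M : SimpleGraph X}
  (hact : ∀ (g : Γ) (x y : X), M.Adj x y → M.Adj (g • x) (g • y)) (x : X)

include hact in
lemma link_smul (g : Γ) (hg : g • x = x) (a b a' b' : M.neighborSet x) (ha : (a' : X) = g • (a : X))
    (hb : (b' : X) = g • (b : X)) (hab : (link M x).Adj a b) : (link M x).Adj a' b' := by
  obtain ⟨h1, m, h2, h3, h4⟩ := hab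
  refine ⟨fun h5 => h1 ?_, g • m, fun h5 => ?_, ?_, ?_⟩
  · refine Subtype.ext (MulAction.injective g ?_)
    show g • (a : X) = g • (b : X)
    rw [← ha, ← hb, h5]
  · exact h2 (MulAction.injective g (h5.trans hg.symm))
  · rw [ha]
    exact hact g _ _ h3
  · rw [hb]
    exact hact g _ _ h4

/-- the link with the action of the stabilizer -/
@[reducible] noncomputable def hyp : @Hyp (M.neighborSet x) (MulAction.stabilizer Γ x) _ (B.nbAct hact x) :=
  letI := B.nbAct hact x
  ⟨link M x, fun g a b => ⟨fun h => link_smul hact x (g⁻¹ : MulAction.stabilizer Γ x) (g⁻¹ : MulAction.stabilizer Γ x).2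
      (g • a) (g • b) a b (inv_smul_smul (g : Γ) (a : X)).symm (inv_smul_smul (g : Γ) (b : X)).symm h,
    fun h => link_smul hact x g g.2 a b (g • a) (g • b) rfl rfl h⟩⟩

/-- the saturation of a set of neighbours -/
def sat (Γ : Type) {X : Type} [Group Γ] [MulAction Γ X] (M : SimpleGraph X) (x : X) (A : Set (M.neighborSet x)) :
    Set (M.neighborSet x) :=
  {v | ∃ g : Γ, g • x = x ∧ ∃ a ∈ A, g • (a : X) = v}

lemma subset_sat (A : Set (M.neighborSet x)) : A ⊆ sat Γ M x A :=
  fun a ha => ⟨1, one_smul _ _, a, ha, one_smul _ _⟩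

lemma sat_inv (A : Set (M.neighborSet x)) (b : MulAction.stabilizer Γ x) (v : M.neighborSet x) (hv : v ∈ sat Γ M x A) :
    (B.nbAct hact x).toSMul.smul b v ∈ sat Γ M x A := by
  obtain ⟨g, h1, a, h2, h3⟩ := hv
  refine ⟨(b : Γ) * g, ?_, a, h2, ?_⟩
  · rw [mul_smul, h1]
    exact b.2
  · rw [mul_smul, h3]
    rfl

/-- **the group generated by the stabilizer and the reflections in `A`** -/
theorem exists_equiv (A : Set (M.neighborSet x)) :
    letI := B.nbAct hact x
    ∃ e : MirGroup Γ M x ≃* Gh (hyp hact x) Unit,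
      (part Γ M x A).map e.toMonoidHom = GA (hyp hact x) (sat_inv hact x A) := by
  letI := B.nbAct hact x
  let S : Hyp (M.neighborSet x) (MulAction.stabilizer Γ x) := hyp hact x
  let e : MirGroup Γ M x ≃* Gh S Unit := mEquiv M x S (Equiv.refl _) (fun _ _ => Iff.rfl) fun _ _ => rfl
  have he1 : ∀ g : MulAction.stabilizer Γ x, e (PresentedGroup.of (Sum.inl g)) = er g := fun g =>
    mTo_el M x S (Equiv.refl _) (fun _ _ => Iff.rfl) (fun _ _ => rfl) g
  have he2 : ∀ a : M.neighborSet x, e (PresentedGroup.of (Sum.inr a)) = el (Racg.gen S.C a) := fun a =>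
    mTo_rf M x S (Equiv.refl _) (fun _ _ => Iff.rfl) (fun _ _ => rfl) a
  refine ⟨e, le_antisymm ?_ ?_⟩
  · rw [Subgroup.map_le_iff_le_comap]
    refine (Subgroup.closure_le _).2 ?_
    rintro _ (⟨g, rfl⟩ | ⟨a, ha, rfl⟩)
    · show e (PresentedGroup.of (Sum.inl g)) ∈ GA S (sat_inv hact x A)
      rw [he1]
      show pw (er g : Gh S Unit).left ∈ Racg.sub (G := S.C) (sat Γ M x A)
      have h3 : (er g : Gh S Unit).left = 1 := SemidirectProduct.left_inr _
      rw [h3, pw_one]
      exact Subgroup.one_mem _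
    · show e (PresentedGroup.of (Sum.inr a)) ∈ GA S (sat_inv hact x A)
      rw [he2]
      show Racg.gen S.C a ∈ Racg.sub (G := S.C) (sat Γ M x A)
      exact Racg.gen_mem_sub (subset_sat x A ha)
  · have hr : ∀ b : MulAction.stabilizer Γ x, (er b : Gh S Unit) ∈ (part Γ M x A).map e.toMonoidHom := fun b =>
      ⟨PresentedGroup.of (Sum.inl b), Subgroup.subset_closure (Or.inl ⟨b, rfl⟩), he1 b⟩
    have hl : ∀ w ∈ Racg.sub (G := S.C) (sat Γ M x A), (el w : Gh S Unit) ∈ (part Γ M x A).map e.toMonoidHom := by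
      intro w hw
      induction hw using Subgroup.closure_induction with
      | mem w hw =>
        obtain ⟨v, ⟨g, h1, a, h2, h3⟩, rfl⟩ := hw
        have h4 : v = (⟨g, h1⟩ : MulAction.stabilizer Γ x) • a := Subtype.ext h3.symm
        rw [h4, ← er_conj]
        exact Subgroup.mul_mem _ (Subgroup.mul_mem _ (hr _)
          ⟨PresentedGroup.of (Sum.inr a), Subgroup.subset_closure (Or.inr ⟨a, h2, rfl⟩), he2 a⟩) (Subgroup.inv_mem _ (hr _))
      | one =>
        rw [el_one]
        exact Subgroup.one_mem _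
      | mul a b _ _ iha ihb =>
        rw [el_mul]
        exact Subgroup.mul_mem _ iha ihb
      | inv a _ ih =>
        have h3 : (el a⁻¹ : Gh S Unit) = (el a)⁻¹ := by
          rw [eq_comm, inv_eq_iff_mul_eq_one, ← el_mul, mul_inv_cancel, el_one]
        rw [h3]
        exact Subgroup.inv_mem _ ih
    intro y hy
    rw [eq_el_er y]
    exact Subgroup.mul_mem _ (hl _ hy) (hr _)

end equiv

section main
variable {Γ X : Type} [Group Γ] [MulAction Γ X] {M : SimpleGraph X}

/-- **the numbers of the mirrored group of a vertex with good edges** -/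
theorem exists_mir (hM : CubicalAction Γ M) (x : X) {m : ℕ} (A : Set (M.neighborSet x))
    (hA : ∀ v, v ∉ A → GoodEdge m Γ M x v) {i : ℕ} (hi : m + 2 < 2 * i) (R : Res.{0} (part Γ M x A)) :
    ∃ R' : Res.{0} (MirGroup Γ M x), R'.toPreRes.toHC.h i = R.toPreRes.toHC.h i := by
  classical
  letI := B.nbAct hM.act x
  let S : Hyp (M.neighborSet x) (MulAction.stabilizer Γ x) := hyp hM.act x
  obtain ⟨e, he⟩ := exists_equiv hM.act x A
  obtain ⟨O, hO⟩ := exists_reps hM x
  have e' : GA S (sat_inv hM.act x A) ≃* part Γ M x A :=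
    ((MulEquiv.subgroupMap e (part Γ M x A)).trans (MulEquiv.subgroupCongr he)).symm
  obtain ⟨R₁, hR₁⟩ := Res.exists_iso e' R
  have hok : ∀ v, v ∉ sat Γ M x A → Ok S i v := by
    intro v hv
    have h1 := hA v fun h => hv (subset_sat x A h)
    obtain ⟨T, K, hK, ⟨f⟩⟩ := h1.sphere
    have hs : Finite (MulAction.stabilizer (MulAction.stabilizer Γ x) v) := by
      have h2 : Finite {g : Γ | g • x = x ∧ g • (v : X) = v} := h1.fin
      refine Finite.of_injective (fun b : MulAction.stabilizer (MulAction.stabilizer Γ x) v =>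
        (⟨b.1.1, b.1.2, congrArg Subtype.val b.2⟩ : {g : Γ | g • x = x ∧ g • (v : X) = v})) fun a b h => ?_
      exact Subtype.ext (Subtype.ext (Subtype.mk.inj h))
    exact ⟨fun b h2 => h1.indep b (b • v) b.2 rfl h2, fun hD => exists_res_ca hD hK f hs,
      fun hD R' => h_ca hD hK f hs R' (by omega), fun hD R' k hk => h_ca hD hK f hs R' (by omega)⟩
  obtain ⟨R₂, hR₂⟩ := exists_full (S := S) (sat_inv hM.act x A) O (fun v _ => by
    obtain ⟨o, ho, g, h1, h2⟩ := hO v
    exact ⟨o, ho, ⟨g, h1⟩, Subtype.ext h2⟩) hok R₁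
  obtain ⟨R₃, hR₃⟩ := Res.exists_iso e R₂
  exact ⟨R₃, (hR₃ i).trans (hR₂.trans (hR₁ i))⟩

/-- the case of all edges -/
lemma part_univ (x : X) : part Γ M x Set.univ = ⊤ := by
  unfold part
  refine eq_top_iff.2 ?_
  rw [← PresentedGroup.closure_range_of, Subgroup.closure_le]
  rintro _ ⟨y | a, rfl⟩
  · exact Subgroup.subset_closure (Or.inl ⟨y, rfl⟩)
  · exact Subgroup.subset_closure (Or.inr ⟨a, Set.mem_univ _, rfl⟩)

/-- the case of all edges, resolutions -/
theorem exists_univ (x : X) (R : Res.{0} (part Γ M x Set.univ)) :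
    ∃ R' : Res.{0} (MirGroup Γ M x), ∀ i, R'.toPreRes.toHC.h i = R.toPreRes.toHC.h i :=
  Res.exists_iso ((Subgroup.topEquiv (G := MirGroup Γ M x)).symm.trans (MulEquiv.subgroupCongr (part_univ x).symm)) R

end main

end RTK
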