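import Pool.Agent.Cm.Fam
import Pool.Agent.Cm.Proper
import Mathlib.InformationTheory.Hamming

/-!
# Resolutions of the semidirect products of right-angled Coxeter groups with finite groups

The cliques (given by their characteristic functions) of a finite graph `C` are the vertices of a median graph: two cliques
are adjacent if and only if they differ by one element.  The link of the empty clique is `C`, and the mirrored group of the
empty clique is the semidirect product of the right-angled Coxeter group of `C` with the group of symmetries.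
-/

set_option autoImplicit false
set_option linter.unusedSectionVars false
set_option linter.unusedVariables false

namespace RTK

open Singer CubeComplex Cm

/-! ### the graph of the cliques -/

/-- the characteristic functions of the cliques -/
abbrev Clq {V : Type} (C : SimpleGraph V) : Type :=
  {f : V → Bool // ∀ u v, f u = true → f v = true → u ≠ v → C.Adj u v}

section clq
variable {V : Type} [Fintype V] (C : SimpleGraph V)

/-- two cliques are adjacent if and only if they differ by one element -/
def clqG : SimpleGraph (Clq C) where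
  Adj f g := hammingDist f.1 g.1 = 1
  symm := ⟨fun f g h => by rw [hammingDist_comm]; exact h⟩
  loopless := ⟨fun f h => by rw [hammingDist_self] at h; exact zero_ne_one h⟩

variable {C}

lemma clqG_adj {f g : Clq C} : (clqG C).Adj f g ↔ hammingDist f.1 g.1 = 1 := Iff.rfl

/-- changing one value -/
lemma hd_update [DecidableEq V] {f g : V → Bool} {v : V} (h : f v ≠ g v) :
    hammingDist f (Function.update f v (g v)) = 1 ∧
      hammingDist (Function.update f v (g v)) g + 1 = hammingDist f g := by
  constructor
  · unfold hammingDist
    rw [Finset.card_eq_one]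
    refine ⟨v, ?_⟩
    ext u
    rw [Finset.mem_filter, Finset.mem_singleton]
    constructor
    · rintro ⟨-, hu⟩
      by_contra h1
      rw [Function.update_of_ne h1] at hu
      exact hu rfl
    · rintro rfl
      refine ⟨Finset.mem_univ _, ?_⟩
      rw [Function.update_self]
      exact h
  · unfold hammingDist
    have h1 : (Finset.univ.filter fun u => f u ≠ g u) =
        insert v (Finset.univ.filter fun u => Function.update f v (g v) u ≠ g u) := by
      ext u
      rw [Finset.mem_insert, Finset.mem_filter, Finset.mem_filter]
      by_cases hu : u = v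
      · subst hu
        exact ⟨fun _ => Or.inl rfl, fun _ => ⟨Finset.mem_univ _, h⟩⟩
      · rw [Function.update_of_ne hu]
        exact ⟨fun h2 => Or.inr h2, fun h2 => h2.resolve_left hu⟩
    rw [h1, Finset.card_insert_of_notMem]
    rw [Finset.mem_filter, Function.update_self]
    exact fun h2 => h2.2 rfl

/-- a clique between `f` and `g` adjacent to `f` -/
lemma clq_step {f g : Clq C} (h : f ≠ g) :
    ∃ k : Clq C, hammingDist f.1 k.1 = 1 ∧ hammingDist k.1 g.1 + 1 = hammingDist f.1 g.1 := by
  classical
  by_cases h1 : ∃ v, f.1 v = true ∧ g.1 v = false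
  · obtain ⟨v, h2, h3⟩ := h1
    have h4 : f.1 v ≠ g.1 v := by
      rw [h2, h3]
      simp
    refine ⟨⟨Function.update f.1 v (g.1 v), ?_⟩, hd_update h4⟩
    intro a b ha hb hab
    have h5 : ∀ a, Function.update f.1 v (g.1 v) a = true → f.1 a = true := by
      intro a ha
      by_cases h6 : a = v
      · rw [h6]
        exact h2
      · rwa [Function.update_of_ne h6] at ha
    exact f.2 a b (h5 a ha) (h5 b hb) hab
  · push Not at h1
    have h2 : ∀ v, f.1 v = true → g.1 v = true := by
      intro v hv
      have := h1 v hv
      simpa using this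
    obtain ⟨v, hv⟩ : ∃ v, f.1 v ≠ g.1 v := by
      by_contra h3
      push Not at h3
      exact h (Subtype.ext (funext h3))
    refine ⟨⟨Function.update f.1 v (g.1 v), ?_⟩, hd_update hv⟩
    intro a b ha hb hab
    have h5 : ∀ a, Function.update f.1 v (g.1 v) a = true → g.1 a = true := by
      intro a ha
      by_cases h6 : a = v
      · rw [h6, Function.update_self] at ha
        rw [h6]
        exact ha
      · rw [Function.update_of_ne h6] at ha
        exact h2 a ha
    exact g.2 a b (h5 a ha) (h5 b hb) hab

lemma clq_walk (n : ℕ) : ∀ f g : Clq C, hammingDist f.1 g.1 = n → ∃ p : (clqG C).Walk f g, p.length = n := by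
  induction n with
  | zero =>
    intro f g h
    obtain rfl : f = g := Subtype.ext (eq_of_hammingDist_eq_zero h)
    exact ⟨SimpleGraph.Walk.nil, rfl⟩
  | succ n ih =>
    intro f g h
    obtain ⟨k, h1, h2⟩ := clq_step (f := f) (g := g) (by
      rintro rfl
      rw [hammingDist_self] at h
      exact absurd h (Nat.succ_ne_zero n).symm)
    obtain ⟨p, hp⟩ := ih k g (by omega)
    exact ⟨SimpleGraph.Walk.cons (clqG_adj.2 h1) p, by rw [SimpleGraph.Walk.length_cons, hp]⟩

lemma hd_le_length {f g : Clq C} (p : (clqG C).Walk f g) : hammingDist f.1 g.1 ≤ p.length := by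
  induction p with
  | nil => rw [hammingDist_self]; exact Nat.zero_le _
  | @cons a b c h p ih =>
    have h1 := hammingDist_triangle a.1 b.1 c.1
    have h2 : hammingDist a.1 b.1 = 1 := h
    rw [SimpleGraph.Walk.length_cons]
    omega

lemma clq_conn : (clqG C).Connected := by
  have : Nonempty (Clq C) := ⟨⟨fun _ => false, fun u v h => absurd h Bool.false_ne_true⟩⟩
  refine ⟨fun f g => ?_⟩
  obtain ⟨p, -⟩ := clq_walk _ f g rfl
  exact ⟨p⟩

lemma clq_dist (f g : Clq C) : (clqG C).dist f g = hammingDist f.1 g.1 := by
  refine le_antisymm ?_ ?_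
  · obtain ⟨p, hp⟩ := clq_walk _ f g rfl
    rw [← hp]
    exact SimpleGraph.dist_le p
  · obtain ⟨p, hp⟩ := (clq_conn (C := C)).exists_walk_length_eq_dist f g
    rw [← hp]
    exact hd_le_length p

/-- the interval -/
lemma hd_between {f g m : V → Bool} :
    hammingDist f m + hammingDist m g = hammingDist f g ↔ ∀ v, f v = g v → m v = f v := by
  have e : ∀ a b : V → Bool, hammingDist a b = ∑ v, if a v ≠ b v then 1 else 0 := by
    intro a b
    unfold hammingDist
    rw [Finset.card_filter]
  rw [e, e, e, ← Finset.sum_add_distrib]
  have h1 : ∀ v ∈ Finset.univ, (if f v ≠ g v then 1 else 0 : ℕ) ≤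
      (if f v ≠ m v then 1 else 0) + (if m v ≠ g v then 1 else 0) := by
    intro v _
    cases f v <;> cases g v <;> cases m v <;> simp
  rw [eq_comm, Finset.sum_eq_sum_iff_of_le h1]
  constructor
  · intro h v hv
    have := h v (Finset.mem_univ _)
    revert this hv
    cases f v <;> cases g v <;> cases m v <;> simp
  · intro h v _
    have := h v
    revert this
    cases f v <;> cases g v <;> cases m v <;> simp

/-- the majority -/
def maj (f g k : V → Bool) (v : V) : Bool := (f v && g v) || (g v && k v) || (f v && k v)

variable (C) in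
/-- **the cliques of a finite graph are the vertices of a median graph** -/
theorem clq_median : IsMedian (clqG C) where
  conn := clq_conn
  med f g k := by
    refine ⟨⟨maj f.1 g.1 k.1, ?_⟩, ?_, ?_⟩
    · intro a b ha hb hab
      unfold maj at ha hb
      have h1 := f.2 a b
      have h2 := g.2 a b
      have h3 := k.2 a b
      revert ha hb h1 h2 h3
      cases f.1 a <;> cases g.1 a <;> cases k.1 a <;> cases f.1 b <;> cases g.1 b <;> cases k.1 b <;>
        simp_all
    · refine ⟨?_, ?_, ?_⟩
      all_goals
        rw [clq_dist, clq_dist, clq_dist, hd_between]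
        intro v
        show _ → maj f.1 g.1 k.1 v = _
        unfold maj
        cases f.1 v <;> cases g.1 v <;> cases k.1 v <;> simp
    · intro m hm
      simp only [clq_dist, hd_between] at hm
      obtain ⟨h1, h2, h3⟩ := hm
      refine Subtype.ext (funext fun v => ?_)
      have a1 := h1 v
      have a2 := h2 v
      have a3 := h3 v
      show m.1 v = maj f.1 g.1 k.1 v
      unfold maj
      revert a1 a2 a3
      cases f.1 v <;> cases g.1 v <;> cases k.1 v <;> cases m.1 v <;> simp

end clq

/-! ### the action -/

section act
variable {V Q : Type} [Fintype V] [Group Q] [MulAction Q V] (S : Hyp V Q)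

/-- the action on the cliques -/
@[instance_reducible] def clqAct : MulAction Q (Clq S.C) where
  smul g f := ⟨fun v => f.1 (g⁻¹ • v), fun u v hu hv huv => by
    have h1 := f.2 _ _ hu hv fun h => huv (MulAction.injective _ h)
    rwa [S.adj] at h1⟩
  one_smul f := Subtype.ext (funext fun v => by
    show f.1 ((1 : Q)⁻¹ • v) = f.1 v
    rw [inv_one, one_smul])
  mul_smul g h f := Subtype.ext (funext fun v => by
    show f.1 ((g * h)⁻¹ • v) = f.1 (h⁻¹ • g⁻¹ • v)
    rw [mul_inv_rev, mul_smul])

/-- the empty clique -/
def emp : Clq S.C := ⟨fun _ => false, fun u v h => absurd h Bool.false_ne_true⟩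

open Classical in
/-- the clique with one element -/
noncomputable def sgl (v : V) : Clq S.C := ⟨fun u => decide (u = v), fun a b ha hb hab => absurd
  ((of_decide_eq_true ha).trans (of_decide_eq_true hb).symm) hab⟩

lemma adj_sgl (v : V) : (clqG S.C).Adj (emp S) (sgl S v) := by
  classical
  rw [clqG_adj]
  unfold hammingDist
  rw [Finset.card_eq_one]
  refine ⟨v, ?_⟩
  ext u
  rw [Finset.mem_filter, Finset.mem_singleton]
  show _ ∧ false ≠ decide (u = v) ↔ _
  by_cases h : u = v <;> simp [h]

lemma exists_sgl {f : Clq S.C} (h : (clqG S.C).Adj (emp S) f) : ∃ v, sgl S v = f := by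
  classical
  rw [clqG_adj] at h
  unfold hammingDist at h
  rw [Finset.card_eq_one] at h
  obtain ⟨v, hv⟩ := h
  refine ⟨v, Subtype.ext (funext fun u => ?_)⟩
  have h1 : u ∈ (Finset.univ.filter fun i => (emp S).1 i ≠ f.1 i) ↔ u ∈ ({v} : Finset V) := by rw [hv]
  rw [Finset.mem_filter, Finset.mem_singleton] at h1
  have h2 : (emp S).1 u = false := rfl
  rw [h2] at h1
  show decide (u = v) = f.1 u
  by_cases h : u = v
  · rw [decide_eq_true h]
    have h3 := (h1.2 h).2
    revert h3
    cases f.1 u <;> simp
  · rw [decide_eq_false h]
    by_contra h3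
    exact h (h1.1 ⟨Finset.mem_univ _, h3⟩)

lemma sgl_inj {v w : V} (h : sgl S v = sgl S w) : v = w := by
  classical
  have h1 : (sgl S v).1 v = (sgl S w).1 v := by rw [h]
  have h2 : decide (v = v) = decide (v = w) := h1
  have h3 : decide (v = v) = true := decide_eq_true rfl
  rw [h3] at h2
  exact of_decide_eq_true h2.symm

/-- the neighbours of the empty clique -/
noncomputable def sglE : V ≃ (clqG S.C).neighborSet (emp S) :=
  Equiv.ofBijective (fun v => ⟨sgl S v, adj_sgl S v⟩)
    ⟨fun v w h => sgl_inj S (congrArg Subtype.val h), fun f => by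
      obtain ⟨v, hv⟩ := exists_sgl S f.2
      exact ⟨v, Subtype.ext hv⟩⟩

/-- the link of the empty clique -/
lemma link_emp (v w : V) : (link (clqG S.C) (emp S)).Adj (sglE S v) (sglE S w) ↔ S.C.Adj v w := by
  classical
  constructor
  · rintro ⟨h1, m, h2, h3, h4⟩
    have hne : v ≠ w := fun h => h1 (by rw [h])
    have h5 : hammingDist (sgl S v).1 m.1 = 1 := h3
    have h6 : hammingDist (sgl S w).1 m.1 = 1 := h4
    have key : ∀ v w : V, v ≠ w → hammingDist (sgl S v).1 m.1 = 1 → hammingDist (sgl S w).1 m.1 = 1 → m.1 v = true := by
      intro v w hne h5 h6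
      by_contra h7
      have h7 : m.1 v = false := by simpa using h7
      unfold hammingDist at h5
      rw [Finset.card_eq_one] at h5
      obtain ⟨a, ha⟩ := h5
      have h8 : ∀ u, (sgl S v).1 u ≠ m.1 u ↔ u = a := by
        intro u
        have : u ∈ (Finset.univ.filter fun i => (sgl S v).1 i ≠ m.1 i) ↔ u ∈ ({a} : Finset V) := by rw [ha]
        rw [Finset.mem_filter, Finset.mem_singleton] at this
        exact ⟨fun h => this.1 ⟨Finset.mem_univ _, h⟩, fun h => (this.2 h).2⟩
      have h9 : v = a := (h8 v).1 (by
        rw [h7]
        show decide (v = v) ≠ false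
        simp)
      apply h2
      refine Subtype.ext (funext fun u => ?_)
      show m.1 u = false
      by_cases h10 : u = v
      · rw [h10]
        exact h7
      · have h11 : ¬ (sgl S v).1 u ≠ m.1 u := fun h => h10 (((h8 u).1 h).trans h9.symm)
        push Not at h11
        rw [← h11]
        show decide (u = v) = false
        exact decide_eq_false h10
    exact m.2 v w (key v w hne h5 h6) (key w v hne.symm h6 h5) hne
  · intro h
    refine ⟨fun h1 => h.ne ((sglE S).injective h1), ⟨fun u => decide (u = v ∨ u = w), ?_⟩, ?_, ?_, ?_⟩
    · intro a b ha hb hab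
      rcases of_decide_eq_true ha with rfl | rfl <;> rcases of_decide_eq_true hb with rfl | rfl
      · exact absurd rfl hab
      · exact h
      · exact h.symm
      · exact absurd rfl hab
    · intro h1
      have h2 : decide (v = v ∨ v = w) = false := congrFun (congrArg Subtype.val h1) v
      simp at h2
    · show hammingDist _ _ = 1
      unfold hammingDist
      rw [Finset.card_eq_one]
      refine ⟨w, ?_⟩
      ext u
      rw [Finset.mem_filter, Finset.mem_singleton]
      show _ ∧ decide (u = v) ≠ decide (u = v ∨ u = w) ↔ _
      by_cases h1 : u = v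
      · subst h1
        simp [h.ne]
      · by_cases h2 : u = w
        · subst h2
          simp [h1]
        · simp [h1, h2]
    · show hammingDist _ _ = 1
      unfold hammingDist
      rw [Finset.card_eq_one]
      refine ⟨v, ?_⟩
      ext u
      rw [Finset.mem_filter, Finset.mem_singleton]
      show _ ∧ decide (u = w) ≠ decide (u = v ∨ u = w) ↔ _
      by_cases h1 : u = w
      · subst h1
        simp [h.ne']
      · by_cases h2 : u = v
        · subst h2
          simp [h1]
        · simp [h1, h2]

lemma finite_clq : Finite (Clq S.C) := by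
  classical
  exact inferInstanceAs (Finite {f : V → Bool // ∀ u v, f u = true → f v = true → u ≠ v → S.C.Adj u v})

lemma hd_smul (g : Q) (f k : V → Bool) :
    hammingDist (fun v => f (g⁻¹ • v)) (fun v => k (g⁻¹ • v)) = hammingDist f k := by
  classical
  unfold hammingDist
  refine Finset.card_bij' (fun v _ => g⁻¹ • v) (fun v _ => g • v) ?_ ?_ ?_ ?_
  · intro v hv
    rw [Finset.mem_filter] at hv ⊢
    exact ⟨Finset.mem_univ _, hv.2⟩
  · intro v hv
    rw [Finset.mem_filter] at hv ⊢
    refine ⟨Finset.mem_univ _, ?_⟩
    show f (g⁻¹ • g • v) ≠ k (g⁻¹ • g • v)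
    rw [inv_smul_smul]
    exact hv.2
  · intro v _
    exact smul_inv_smul g v
  · intro v _
    exact inv_smul_smul g v

end act

/-- **resolutions of the semidirect product of the right-angled Coxeter group of a finite graph with a finite group of
symmetries of the graph** -/
theorem exists_res_semi {V Q : Type} [Finite V] [Group Q] [Finite Q] [MulAction Q V] (S : Hyp V Q) :
    Nonempty (Res.{0} (Gh S Unit)) := by
  classical
  have : Fintype V := Fintype.ofFinite V
  let _ : MulAction Q (Clq S.C) := clqAct S
  have hfin : Finite (Clq S.C) := finite_clq S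
  have hact : ∀ (g : Q) (x y : Clq S.C), (clqG S.C).Adj x y → (clqG S.C).Adj (g • x) (g • y) := by
    intro g x y h
    have h1 := hd_smul g x.1 y.1
    exact h1.trans h
  have hA : CubicalAction Q (clqG S.C) := CubicalAction.of_proper (clq_median S.C) (fun x => Set.toFinite _) hact
    (fun x => inferInstance) (F := Set.univ) Set.finite_univ fun x => ⟨x, Set.mem_univ _, 1, one_smul _ _⟩
  obtain ⟨R⟩ := exists_res_mir hA (emp S)
  have hemp : ∀ g : Q, g • emp S = emp S := fun g => rfl
  let S' : Hyp V (MulAction.stabilizer Q (emp S)) := ⟨S.C, fun g t u => S.adj (g : Q) t u⟩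
  let e1 : MirGroup Q (clqG S.C) (emp S) ≃* Gh S' Unit := mEquiv (clqG S.C) (emp S) S' (sglE S).symm
    (fun a b => by
      obtain ⟨v, rfl⟩ := (sglE S).surjective a
      obtain ⟨w, rfl⟩ := (sglE S).surjective b
      rw [Equiv.symm_apply_apply, Equiv.symm_apply_apply]
      exact link_emp S v w)
    fun g a => by
      obtain ⟨v, rfl⟩ := (sglE S).surjective a
      rw [Equiv.symm_apply_apply, Equiv.symm_symm]
      refine Subtype.ext (funext fun u => ?_)
      show decide ((g : Q)⁻¹ • u = v) = decide (u = (g : Q) • v)
      rw [decide_eq_decide]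
      exact inv_smul_eq_iff
  let fg : MulAction.stabilizer Q (emp S) ≃* Q :=
    { toFun := fun g => g
      invFun := fun g => ⟨g, hemp g⟩
      left_inv := fun g => rfl
      right_inv := fun g => rfl
      map_mul' := fun g h => rfl }
  let fn : NN S' Unit ≃* NN S Unit :=
    { toFun := fun n => n
      invFun := fun n => n
      left_inv := fun n => rfl
      right_inv := fun n => rfl
      map_mul' := fun n m => rfl }
  let e2 : Gh S' Unit ≃* Gh S Unit := SemidirectProduct.congr (fn := fn) (fg := fg) (fun g => rfl)
  obtain ⟨R', -⟩ := Res.exists_iso (e1.trans e2).symm R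
  exact ⟨R'⟩

end RTK
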