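import Pool.Agent.RTK.Ind
import Pool.Agent.RTK.OkOf
import Pool.Agent.Singer.BettiStmt
import Pool.Agent.Singer.FinBetti
import Pool.Agent.Cm.Middle
import Pool.Agent.Cm.Bet

/-!
# The reflection trick: the right-angled Coxeter group of a graph and a group of automorphisms of the graph

* `exists_gh` : the semidirect product with the right-angled Coxeter group is the group `Gh S Unit`;
* `exists_empty` : the group of the empty set of vertices is `B`;
* `betti_trick` : the `ℓ²`-Betti numbers of the semidirect product are those of `B` in the degrees `i` with `m + 2 < 2 * i`.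
-/

set_option autoImplicit false
set_option linter.unusedSectionVars false
set_option linter.unusedVariables false

namespace RTK

open Singer Cm

variable {V B : Type} [Group B] [MulAction B V] (S : Hyp V B)

/-- the normal subgroup -/
noncomputable def nnEquiv : RACG S.C ≃* NN S Unit where
  toFun w := ((w, 1) : RACG S.C × Multiplicative (V → Unit))
  invFun n := pw n
  left_inv w := rfl
  right_inv n := nn_ext rfl fun t => Subsingleton.elim (α := Unit) _ _
  map_mul' a b := nn_ext rfl fun t => Subsingleton.elim (α := Unit) _ _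

/-- the semidirect product -/
theorem exists_racg_gh (φ : B →* MulAut (RACG S.C)) (hφ : ∀ b v, φ b (Racg.gen S.C v) = Racg.gen S.C (b • v)) :
    Nonempty (RACG S.C ⋊[φ] B ≃* Gh S Unit) := by
  refine ⟨SemidirectProduct.congr (nnEquiv S) (MulEquiv.refl B) fun b => ?_⟩
  have h1 : (φ b).toMonoidHom = (Racg.map (G := S.C) (G' := S.C) (fun t => b • t) (fun u v h => (S.adj b u v).2 h)) :=
    Racg.hom_ext fun v => by
      rw [Racg.map_gen]
      exact hφ b v
  refine MulEquiv.ext fun w => ?_
  refine nn_ext ?_ fun t => Subsingleton.elim (α := Unit) _ _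
  exact DFunLike.congr_fun h1 w

/-- the semidirect product -/
theorem exists_gh (φ : B →* MulAut (SingerPD.Cox S.C))
    (hφ : ∀ b v, φ b (PresentedGroup.of v) = PresentedGroup.of (b • v)) :
    Nonempty (SingerPD.Cox S.C ⋊[φ] B ≃* Gh S Unit) :=
  exists_racg_gh S φ hφ

variable {S}

lemma sub_empty : Racg.sub (G := S.C) (∅ : Set V) = ⊥ := by
  unfold Racg.sub
  rw [Set.image_empty, Subgroup.closure_empty]

/-- the group of the empty set -/
theorem exists_empty (h : ∀ (b : B) v, v ∈ (∅ : Set V) → b • v ∈ (∅ : Set V)) : Nonempty (B ≃* GA S h) := by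
  refine ⟨MulEquiv.ofBijective (MonoidHom.mk' (fun b => (⟨er b, ?_⟩ : GA S h)) fun a b => Subtype.ext ?_) ⟨?_, ?_⟩⟩
  · show pw (er b : Gh S Unit).left ∈ Racg.sub (G := S.C) ∅
    rw [pw_er]
    exact Subgroup.one_mem _
  · exact map_mul (SemidirectProduct.inr : B →* Gh S Unit) a b
  · intro a b hab
    have h1 : (er a : Gh S Unit) = er b := congrArg Subtype.val hab
    exact SemidirectProduct.inr_injective h1
  · rintro ⟨x, hx⟩
    have h1 : pw x.left = 1 := by
      have h2 : pw x.left ∈ Racg.sub (G := S.C) (∅ : Set V) := hx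
      rw [sub_empty] at h2
      exact Subgroup.mem_bot.1 h2
    refine ⟨x.right, Subtype.ext (gh_ext ?_ ?_)⟩
    · show pw (er x.right : Gh S Unit).left = pw x.left
      rw [pw_er, h1]
    · rfl

/-- **the `ℓ²`-Betti numbers of the groups which contain each other with finite index** -/
theorem betti_trick {H : Type} [Group H] (L : SimpleGraph V) (hL : ∀ (b : B) u v, L.Adj (b • u) (b • v) ↔ L.Adj u v)
    (φ : B →* MulAut (SingerPD.Cox L)) (hφ : ∀ b v, φ b (PresentedGroup.of v) = PresentedGroup.of (b • v))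
    (hO : ∃ O : Finset V, ∀ v, ∃ o ∈ O, ∃ b : B, b • o = v) (hs : ∀ v : V, Finite (MulAction.stabilizer B v))
    (hind : ∀ (b : B) v, ¬ L.Adj v (b • v)) (m : ℕ)
    (hlk : ∀ v, ∃ (T : Type) (K : SimpleGraph T), SingerCube.HSphere m K ∧ Nonempty (SingerPD.link L v ↪g K))
    (j : H →* SingerPD.Cox L ⋊[φ] B) (hj : Function.Injective j) (hjf : j.range.FiniteIndex)
    (RB : FinRes B) (R : FinRes H) {i : ℕ} (hi : m + 2 < 2 * i) : R.betti i = j.range.index * RB.betti i := by
  let S : Hyp V B := ⟨L, hL⟩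
  obtain ⟨e⟩ := exists_gh S φ hφ
  have h0 : ∀ (b : B) v, v ∈ (∅ : Set V) → b • v ∈ (∅ : Set V) := fun _ _ h => h
  obtain ⟨e'⟩ := exists_empty (S := S) h0
  obtain ⟨R₁, hR₁⟩ := Res.exists_iso e'.symm RB.toRes
  obtain ⟨O, hO⟩ := hO
  have hok : ∀ v, v ∉ (∅ : Set V) → Ok S i v := by
    intro v _
    obtain ⟨T, K, hK, ⟨f⟩⟩ := hlk v
    exact ⟨fun b => hind b v, fun hD => exists_res_ca hD hK f (hs v), fun hD R' => h_ca hD hK f (hs v) R' (by omega),
      fun hD R' k hk => h_ca hD hK f (hs v) R' (by omega)⟩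
  obtain ⟨R₂, hR₂⟩ := exists_full (S := S) h0 O (fun v _ => hO v) hok R₁
  obtain ⟨R₃, hR₃⟩ := Res.exists_iso e R₂
  obtain ⟨T, hT⟩ := Cm.B.exists_trv_index j hj hjf
  have h1 := T.h_res R₃ i
  rw [Res.h_eq (T.res R₃) R.toRes i, hT, hR₃ i, hR₂, hR₁ i] at h1
  rw [FinRes.betti_eq R i, FinRes.betti_eq RB i]
  exact h1

end RTK
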